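import Pool.Agent.Run7.h311.OM.Ip

set_option autoImplicit false

/-! One factor of the resonator: `1 + μ ∑_{p ∈ S} g(p) p^(-s)`. -/

namespace Run7.h311.OM

open Filter Topology MeasureTheory Complex
open Pool.Agent.Q97.UM Pool.Agent.Q14.UM Run7.h311.LW

noncomputable section

/-- the restriction to `S` -/
def sS (S : Finset ℕ) (a : ℕ → ℂ) (n : ℕ) : ℂ := if n ∈ S then a n else 0

/-- the unit -/
def dl (n : ℕ) : ℂ := if n = 1 then 1 else 0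

/-- the factor -/
def Fb (S : Finset ℕ) (g : ℕ → ℂ) (μ : ℝ) (n : ℕ) : ℂ := dl n + μ * sS S g n

/-- the mean of the sum over `S` -/
def mb (S : Finset ℕ) (a g : ℕ → ℂ) : ℂ := ∑ p ∈ S, a p * (starRingEnd ℂ) (g p) / p

/-- the deviation times the factor -/
def Hb (S : Finset ℕ) (a g : ℕ → ℂ) (μ : ℝ) (n : ℕ) : ℂ := cv (sS S a) (Fb S g μ) n + (-mb S a g) * Fb S g μ n

section
variable {S : Finset ℕ} {Z : ℕ}

theorem sS_ne {a : ℕ → ℂ} {n : ℕ} (h : sS S a n ≠ 0) : n ∈ S := by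
  unfold sS at h
  by_contra h1
  exact h (if_neg h1)

theorem sS_om (hS : ∀ p ∈ S, p.Prime) {a : ℕ → ℂ} {n : ℕ} (h : sS S a n ≠ 0) : n ≠ 0 ∧ LW.om 0 n = 1 := by
  have h1 := hS n (sS_ne h)
  exact ⟨h1.ne_zero, om_prime h1 h1.pos⟩

theorem sS_len (hZ : ∀ p ∈ S, p ≤ Z) (a : ℕ → ℂ) : ∀ n, Z < n → sS S a n = 0 := by
  intro n hn
  unfold sS
  rw [if_neg]
  intro h
  have := hZ n h
  omega

theorem sS_SP (hS : ∀ p ∈ S, p.Prime) (a : ℕ → ℂ) : SP (fun p => p ∈ S) (sS S a) := by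
  intro n hn
  have h1 := sS_ne hn
  refine ⟨(hS n h1).ne_zero, fun p hp hpn => ?_⟩
  rw [(Nat.prime_dvd_prime_iff_eq hp (hS n h1)).1 hpn]
  exact h1

theorem dl_SP (P : ℕ → Prop) : SP P dl := by
  intro n hn
  unfold dl at hn
  have h1 : n = 1 := by
    by_contra h
    exact hn (if_neg h)
  subst h1
  refine ⟨one_ne_zero, fun p hp hpn => ?_⟩
  have := Nat.dvd_one.1 hpn
  exact absurd this hp.one_lt.ne'

theorem dl_om {n : ℕ} (h : dl n ≠ 0) : n ≠ 0 ∧ LW.om 0 n = 0 := by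
  unfold dl at h
  have h1 : n = 1 := by
    by_contra h2
    exact h (if_neg h2)
  subst h1
  exact ⟨one_ne_zero, om_one 0⟩

theorem cv_om {u v : ℕ → ℂ} {i j : ℕ} (hu : ∀ n, u n ≠ 0 → n ≠ 0 ∧ LW.om 0 n = i) (hv : ∀ n, v n ≠ 0 → n ≠ 0 ∧ LW.om 0 n = j) :
    ∀ n, cv u v n ≠ 0 → n ≠ 0 ∧ LW.om 0 n = i + j := by
  intro n hn
  unfold cv at hn
  obtain ⟨z, hz, h1⟩ := Finset.exists_ne_zero_of_sum_ne_zero hn
  rw [Nat.mem_divisorsAntidiagonal] at hz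
  have h2 := hu z.1 (left_ne_zero_of_mul h1)
  have h3 := hv z.2 (right_ne_zero_of_mul h1)
  refine ⟨hz.2, ?_⟩
  rw [← hz.1, om_mul 0 h2.1 h3.1, h2.2, h3.2]

theorem ip_om {u v : ℕ → ℂ} {i j : ℕ} (hu : ∀ n, u n ≠ 0 → n ≠ 0 ∧ LW.om 0 n = i) (hv : ∀ n, v n ≠ 0 → n ≠ 0 ∧ LW.om 0 n = j)
    (hij : i ≠ j) (M : ℕ) : ip M u v = 0 := by
  apply ip_disj
  intro n hn
  by_contra h
  exact hij ((hu n hn).2.symm.trans (hv n h).2)

theorem SP_add {P : ℕ → Prop} {u v : ℕ → ℂ} (hu : SP P u) (hv : SP P v) : SP P (fun n => u n + v n) := by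
  intro n hn
  change u n + v n ≠ 0 at hn
  by_cases h : u n = 0
  · apply hv
    intro h1
    apply hn
    rw [h, h1, add_zero]
  · exact hu n h

theorem SP_smul {P : ℕ → Prop} {u : ℕ → ℂ} (z : ℂ) (hu : SP P u) : SP P (fun n => z * u n) := by
  intro n hn
  change z * u n ≠ 0 at hn
  apply hu
  intro h
  apply hn
  rw [h, mul_zero]

theorem Fb_SP (hS : ∀ p ∈ S, p.Prime) (g : ℕ → ℂ) (μ : ℝ) : SP (fun p => p ∈ S) (Fb S g μ) :=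
  SP_add (dl_SP _) (SP_smul _ (sS_SP hS g))

theorem Hb_SP (hS : ∀ p ∈ S, p.Prime) (a g : ℕ → ℂ) (μ : ℝ) : SP (fun p => p ∈ S) (Hb S a g μ) :=
  SP_add (SP_cv _ _ _ (sS_SP hS a) (Fb_SP hS g μ)) (SP_smul _ (Fb_SP hS g μ))

theorem Fb_len (hZ1 : 1 ≤ Z) (hZ : ∀ p ∈ S, p ≤ Z) (g : ℕ → ℂ) (μ : ℝ) : ∀ n, Z < n → Fb S g μ n = 0 := by
  intro n hn
  unfold Fb dl
  rw [sS_len hZ g n hn, if_neg (by omega)]
  simp

theorem Hb_len (hZ1 : 1 ≤ Z) (hZ : ∀ p ∈ S, p ≤ Z) (a g : ℕ → ℂ) (μ : ℝ) : ∀ n, Z ^ 2 < n → Hb S a g μ n = 0 := by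
  intro n hn
  unfold Hb
  have h1 : Z ≤ Z ^ 2 := Nat.le_self_pow (by norm_num) Z
  rw [Fb_len hZ1 hZ g μ n (by omega), cv_len _ _ Z Z (sS_len hZ a) (Fb_len hZ1 hZ g μ) n (by rw [← sq]; exact hn)]
  simp

theorem cv_dl (u : ℕ → ℂ) (hu : u 0 = 0) : cv u dl = u := by
  funext n
  unfold cv dl
  rcases Nat.eq_zero_or_pos n with h | h
  · subst h
    simp [hu]
  · have h1 : ∀ z ∈ n.divisorsAntidiagonal, u z.1 * (if z.2 = 1 then (1 : ℂ) else 0) =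
        if z = (n, 1) then u n else 0 := by
      intro z hz
      rw [Nat.mem_divisorsAntidiagonal] at hz
      by_cases h2 : z.2 = 1
      · have h3 : z.1 = n := by rw [h2, mul_one] at hz; exact hz.1
        rw [if_pos h2, if_pos (Prod.ext h3 h2), h3, mul_one]
      · rw [if_neg h2, if_neg, mul_zero]
        intro h3
        exact h2 (by rw [h3])
    rw [Finset.sum_congr rfl h1, Finset.sum_ite_eq', if_pos]
    rw [Nat.mem_divisorsAntidiagonal]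
    exact ⟨mul_one n, by omega⟩

theorem sS_zero (hS : ∀ p ∈ S, p.Prime) (a : ℕ → ℂ) : sS S a 0 = 0 := by
  unfold sS
  rw [if_neg]
  intro h
  exact (hS 0 h).ne_zero rfl

/-- inner products of sums over `S` -/
theorem ip_sS (hS : ∀ p ∈ S, p.Prime) (hZ : ∀ p ∈ S, p ≤ Z) (a g : ℕ → ℂ) : ip Z (sS S a) (sS S g) = mb S a g := by
  unfold ip mb
  have h1 : S ⊆ Finset.Icc 1 Z := by
    intro p hp
    rw [Finset.mem_Icc]
    exact ⟨(hS p hp).one_lt.le, hZ p hp⟩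
  symm
  rw [← Finset.sum_subset h1]
  · refine Finset.sum_congr rfl fun p hp => ?_
    unfold sS
    rw [if_pos hp, if_pos hp]
  · intro n _ hn
    unfold sS
    rw [if_neg hn]
    simp

theorem N2_sS (hS : ∀ p ∈ S, p.Prime) (hZ : ∀ p ∈ S, p ≤ Z) (g : ℕ → ℂ) :
    N2 Z (sS S g) = ∑ p ∈ S, ‖g p‖ ^ 2 / (p : ℝ) := by
  have h := ip_sS hS hZ g g
  rw [ip_self] at h
  unfold mb at h
  have h2 : (∑ p ∈ S, g p * (starRingEnd ℂ) (g p) / (p : ℂ)) = ((∑ p ∈ S, ‖g p‖ ^ 2 / (p : ℝ) : ℝ) : ℂ) := by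
    push_cast
    refine Finset.sum_congr rfl fun p _ => ?_
    rw [Complex.mul_conj, Complex.normSq_eq_norm_sq]
    push_cast
    rfl
  rw [h2] at h
  exact_mod_cast h

theorem N2_dl {M : ℕ} (hM : 1 ≤ M) : N2 M dl = 1 := by
  unfold N2 dl
  rw [Finset.sum_eq_single 1]
  · simp
  · intro n _ hn
    rw [if_neg hn]
    simp
  · intro h
    rw [Finset.mem_Icc] at h
    omega

/-- two sums over primes of `S` -/
theorem N2_two (hS : ∀ p ∈ S, p.Prime) (hZ : ∀ p ∈ S, p ≤ Z) (a g : ℕ → ℂ) (M : ℕ) :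
    N2 M (cv (sS S a) (sS S g)) ≤ 2 * N2 Z (sS S a) * N2 Z (sS S g) := by
  have h1 := cv_bds (sS S a) (sS S g) S (fun n hn => sS_ne hn) (fun s hs => (hS s hs).one_lt.le) M Z 2 (by norm_num)
    (fun k hk hc => by
      have h2 := card_le_om hk S (P := 0) (fun p hp => ⟨hS p hp, (hS p hp).pos⟩)
      rw [(cv_om (fun n hn => sS_om hS hn) (fun n hn => sS_om hS hn) k hc).2] at h2
      exact_mod_cast h2) (sS_len hZ g)
  have e : ∑ s ∈ S, ‖sS S a s‖ ^ 2 / (s : ℝ) = N2 Z (sS S a) := by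
    rw [N2_sS hS hZ]
    refine Finset.sum_congr rfl fun p hp => ?_
    unfold sS
    rw [if_pos hp]
  rwa [e] at h1

theorem N2_smul (M : ℕ) (c : ℂ) (u : ℕ → ℂ) : N2 M (fun n => c * u n) = ‖c‖ ^ 2 * N2 M u := by
  unfold N2
  rw [Finset.mul_sum]
  refine Finset.sum_congr rfl fun n _ => ?_
  rw [norm_mul, mul_pow]
  ring

/-- the three facts about one block -/
theorem blk (hS : ∀ p ∈ S, p.Prime) (hZ1 : 1 ≤ Z) (hZ : ∀ p ∈ S, p ≤ Z) (a g : ℕ → ℂ) (ha : ∀ p, ‖a p‖ ≤ 1) {μ : ℝ}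
    (hμ : μ = 1 + μ ^ 2 * ∑ p ∈ S, ‖g p‖ ^ 2 / (p : ℝ)) (hμ2 : μ ≤ 2) :
    N2 (Z ^ 2) (Fb S g μ) = μ ∧ ip (Z ^ 2) (Hb S a g μ) (Fb S g μ) = 0 ∧
      N2 (Z ^ 2) (Hb S a g μ) ≤ 3 * ∑ p ∈ S, (1 : ℝ) / p := by
  have hZZ : Z ≤ Z ^ 2 := Nat.le_self_pow (by norm_num) Z
  have hZ' : ∀ p ∈ S, p ≤ Z ^ 2 := fun p hp => (hZ p hp).trans hZZ
  have hZ2 : 1 ≤ Z ^ 2 := by omega
  obtain ⟨G, hG⟩ : ∃ G, G = ∑ p ∈ S, ‖g p‖ ^ 2 / (p : ℝ) := ⟨_, rfl⟩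
  have hG0 : 0 ≤ G := by rw [hG]; positivity
  rw [← hG] at hμ
  have eG : N2 (Z ^ 2) (sS S g) = G := by rw [hG, N2_sS hS hZ']
  have d1 : ∀ n, dl n ≠ 0 → n ≠ 0 ∧ LW.om 0 n = 0 := fun n => dl_om
  have s1 : ∀ b : ℕ → ℂ, ∀ n, sS S b n ≠ 0 → n ≠ 0 ∧ LW.om 0 n = 1 := fun b n => sS_om hS
  have c2 : ∀ n, cv (sS S a) (sS S g) n ≠ 0 → n ≠ 0 ∧ LW.om 0 n = 1 + 1 := cv_om (s1 a) (s1 g)
  have hF : N2 (Z ^ 2) (Fb S g μ) = μ := by
    unfold Fb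
    rw [N2_add, N2_dl hZ2, N2_smul, eG, ip_smul_right, ip_om d1 (s1 g) (by norm_num)]
    rw [Complex.norm_real, Real.norm_eq_abs, sq_abs, mul_zero, Complex.zero_re, mul_zero, add_zero]
    exact hμ.symm
  have hcv : cv (sS S a) (Fb S g μ) = fun n => sS S a n + (μ : ℂ) * cv (sS S a) (sS S g) n := by
    have : Fb S g μ = fun n => dl n + (μ : ℂ) * sS S g n := rfl
    rw [this, cv_add_right, cv_smul_right, cv_dl _ (sS_zero hS a)]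
  have hip : ip (Z ^ 2) (cv (sS S a) (Fb S g μ)) (Fb S g μ) = μ * mb S a g := by
    rw [hcv, ip_add_left, ip_smul_left]
    have : Fb S g μ = fun n => dl n + (μ : ℂ) * sS S g n := rfl
    rw [this, ip_add_right, ip_add_right, ip_smul_right, ip_smul_right, ip_om (s1 a) d1 (by norm_num),
      ip_om c2 d1 (by norm_num), ip_om c2 (s1 g) (by norm_num), ip_sS hS hZ', Complex.conj_ofReal]
    ring
  have hHF : ip (Z ^ 2) (Hb S a g μ) (Fb S g μ) = 0 := by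
    unfold Hb
    rw [ip_add_left, ip_smul_left, hip, ip_self, hF]
    ring
  refine ⟨hF, hHF, ?_⟩
  have h1 : N2 (Z ^ 2) (cv (sS S a) (Fb S g μ)) = N2 (Z ^ 2) (Hb S a g μ) + ‖mb S a g‖ ^ 2 * N2 (Z ^ 2) (Fb S g μ) := by
    have e1 : cv (sS S a) (Fb S g μ) = fun n => Hb S a g μ n + mb S a g * Fb S g μ n := by
      funext n
      unfold Hb
      ring
    have h2 : N2 (Z ^ 2) (fun n => Hb S a g μ n + mb S a g * Fb S g μ n) =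
        N2 (Z ^ 2) (Hb S a g μ) + ‖mb S a g‖ ^ 2 * N2 (Z ^ 2) (Fb S g μ) := by
      rw [N2_add, N2_smul, ip_smul_right, hHF, mul_zero, Complex.zero_re, mul_zero, add_zero]
    rw [← h2, ← e1]
  have h2 : N2 (Z ^ 2) (Hb S a g μ) ≤ N2 (Z ^ 2) (cv (sS S a) (Fb S g μ)) := by
    rw [h1, hF]
    have h3 : 0 ≤ μ := by rw [← hF]; exact N2_nn _ _
    have : 0 ≤ ‖mb S a g‖ ^ 2 * μ := by positivity
    linarith
  refine h2.trans ?_
  rw [hcv, N2_add, N2_smul, ip_smul_right, ip_om (s1 a) c2 (by norm_num), mul_zero, Complex.zero_re, mul_zero, add_zero,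
    Complex.norm_real, Real.norm_eq_abs, sq_abs]
  have h3 := N2_two hS hZ' a g (Z ^ 2)
  rw [eG] at h3
  have h4 : N2 (Z ^ 2) (sS S a) ≤ ∑ p ∈ S, (1 : ℝ) / p := by
    rw [N2_sS hS hZ']
    refine Finset.sum_le_sum fun p _ => ?_
    have : ‖a p‖ ^ 2 ≤ 1 := pow_le_one₀ (norm_nonneg _) (ha p)
    gcongr
  have h5 : μ ^ 2 * G ≤ 1 := by linarith
  have h6 : 0 ≤ N2 (Z ^ 2) (sS S a) := N2_nn _ _
  have h7 : μ ^ 2 * N2 (Z ^ 2) (cv (sS S a) (sS S g)) ≤ 2 * N2 (Z ^ 2) (sS S a) := by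
    calc μ ^ 2 * N2 (Z ^ 2) (cv (sS S a) (sS S g)) ≤ μ ^ 2 * (2 * N2 (Z ^ 2) (sS S a) * G) :=
          mul_le_mul_of_nonneg_left h3 (sq_nonneg _)
      _ = 2 * N2 (Z ^ 2) (sS S a) * (μ ^ 2 * G) := by ring
      _ ≤ 2 * N2 (Z ^ 2) (sS S a) * 1 := mul_le_mul_of_nonneg_left h5 (by positivity)
      _ = _ := by ring
  linarith

/-- the scaling factor -/
theorem mu_ex {G : ℝ} (h0 : 0 ≤ G) (h1 : G ≤ 1 / 4) : ∃ μ : ℝ, 1 ≤ μ ∧ μ ≤ 2 ∧ μ = 1 + μ ^ 2 * G := by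
  have hf : ContinuousOn (fun μ : ℝ => 1 + μ ^ 2 * G - μ) (Set.Icc 1 2) := by fun_prop
  have h2 : (0 : ℝ) ∈ Set.Icc ((fun μ : ℝ => 1 + μ ^ 2 * G - μ) 2) ((fun μ : ℝ => 1 + μ ^ 2 * G - μ) 1) := by
    simp only [Set.mem_Icc]
    constructor <;> nlinarith
  obtain ⟨μ, hμ, h3⟩ := intermediate_value_Icc' (by norm_num : (1 : ℝ) ≤ 2) hf h2
  refine ⟨μ, hμ.1, hμ.2, ?_⟩
  simp only at h3
  linarith

end

end

end Run7.h311.OM
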