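import Pool.Agent.Run7.h311.OM.Blk

set_option autoImplicit false

/-! The resonator as a product of blocks. -/

namespace Run7.h311.OM

open Filter Topology MeasureTheory Complex
open Pool.Agent.Q97.UM Pool.Agent.Q14.UM Run7.h311.LW

noncomputable section

theorem SP_mono {P Q : ℕ → Prop} {u : ℕ → ℂ} (h : ∀ p, P p → Q p) (hu : SP P u) : SP Q u :=
  fun n hn => ⟨(hu n hn).1, fun p hp hpn => h p ((hu n hn).2 p hp hpn)⟩

theorem SP_zero (P : ℕ → Prop) : SP P (fun _ => 0) := fun _ hn => absurd rfl hn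

theorem dp_add' (M : ℕ) (c e : ℕ → ℂ) (t : ℝ) : dp M (fun n => c n + e n) t = dp M c t + dp M e t := by
  have h := dp_add M c e 1 t
  simp only [one_mul] at h
  exact h

theorem dp_zero' (M : ℕ) (t : ℝ) : dp M (fun _ => 0) t = 0 := by
  unfold dp
  simp

theorem sS_union {A B : Finset ℕ} (h : Disjoint A B) (a : ℕ → ℂ) (n : ℕ) : sS (A ∪ B) a n = sS A a n + sS B a n := by
  unfold sS
  by_cases h1 : n ∈ A
  · have h2 : n ∉ B := fun h3 => Finset.disjoint_left.1 h h1 h3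
    rw [if_pos (Finset.mem_union_left _ h1), if_pos h1, if_neg h2, add_zero]
  · by_cases h2 : n ∈ B
    · rw [if_pos (Finset.mem_union_right _ h2), if_neg h1, if_pos h2, zero_add]
    · rw [if_neg, if_neg h1, if_neg h2, add_zero]
      rw [Finset.mem_union, not_or]
      exact ⟨h1, h2⟩

theorem dp_Hb (hD : S_DPM) {S : Finset ℕ} {Z : ℕ} (hZ1 : 1 ≤ Z) (hZ : ∀ p ∈ S, p ≤ Z) (a g : ℕ → ℂ) (μ : ℝ) (t : ℝ) :
    dp (Z ^ 2) (Hb S a g μ) t = (dp Z (sS S a) t - mb S a g) * dp (Z ^ 2) (Fb S g μ) t := by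
  have h1 : dp (Z ^ 2) (Hb S a g μ) t = dp (Z ^ 2) (cv (sS S a) (Fb S g μ)) t + (-mb S a g) * dp (Z ^ 2) (Fb S g μ) t :=
    dp_add _ _ _ _ _
  have h2 : dp Z (sS S a) t * dp Z (Fb S g μ) t = dp (Z * Z) (cv (sS S a) (Fb S g μ)) t :=
    hD.1 Z Z _ _ t (sS_len hZ a) (Fb_len hZ1 hZ g μ)
  have hZZ : Z ≤ Z ^ 2 := Nat.le_self_pow (by norm_num) Z
  have h3 : dp Z (Fb S g μ) t = dp (Z ^ 2) (Fb S g μ) t :=
    dp_ext _ _ _ _ (Fb_len hZ1 hZ g μ) (fun n hn => Fb_len hZ1 hZ g μ n (by omega))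
  rw [← sq, h3] at h2
  rw [h1, ← h2]
  ring

open Classical in
/-- the products of the first factors -/
theorem chain_aux (hD : S_DPM) {Q : Finset ℕ} {Z : ℕ} (hQ : ∀ p ∈ Q, p.Prime) (hZ1 : 1 ≤ Z) (hZ : ∀ p ∈ Q, p ≤ Z)
    (g : ℕ → ℂ) (idx : ℕ → ℕ) (hG : ∀ i, ∑ p ∈ Q.filter (fun p => idx p = i), ‖g p‖ ^ 2 / (p : ℝ) ≤ 1 / 4) (k : ℕ) :
    ∃ r : ℕ → ℂ, (∀ n, (Z ^ 2) ^ k < n → r n = 0) ∧ SP (fun p => p ∈ Q.filter (fun p => idx p < k)) r ∧
      1 ≤ N2 ((Z ^ 2) ^ k) r ∧ ∀ a : ℕ → ℂ, (∀ p, ‖a p‖ ≤ 1) → ∃ e : ℕ → ℂ, (∀ n, (Z ^ 2) ^ k < n → e n = 0) ∧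
        SP (fun p => p ∈ Q.filter (fun p => idx p < k)) e ∧
        (∀ t : ℝ, dp ((Z ^ 2) ^ k) e t = (dp Z (sS (Q.filter (fun p => idx p < k)) a) t -
          mb (Q.filter (fun p => idx p < k)) a g) * dp ((Z ^ 2) ^ k) r t) ∧
        ip ((Z ^ 2) ^ k) e r = 0 ∧
        N2 ((Z ^ 2) ^ k) e ≤ 3 * (∑ p ∈ Q.filter (fun p => idx p < k), (1 : ℝ) / p) * N2 ((Z ^ 2) ^ k) r := by
  induction k with
  | zero =>
    refine ⟨dl, ?_, dl_SP _, ?_, ?_⟩
    · intro n hn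
      rw [pow_zero] at hn
      unfold dl
      rw [if_neg (by omega)]
    · rw [pow_zero, N2_dl le_rfl]
    · intro a _
      have h0 : Q.filter (fun p => idx p < 0) = ∅ := by
        rw [Finset.filter_eq_empty_iff]
        intro p _
        omega
      refine ⟨fun _ => 0, fun _ _ => rfl, SP_zero _, ?_, ip_zero_left _ _, ?_⟩
      · intro t
        rw [h0, dp_zero']
        unfold mb
        have : dp Z (sS ∅ a) t = 0 := by
          unfold dp sS
          simp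
        rw [this]
        simp
      · rw [h0]
        unfold N2
        simp
  | succ k ih =>
    obtain ⟨r, hr1, hr2, hr3, hr4⟩ := ih
    obtain ⟨A, hA⟩ : ∃ A : Finset ℕ, A = Q.filter (fun p => idx p < k) := ⟨_, rfl⟩
    obtain ⟨B, hB⟩ : ∃ B : Finset ℕ, B = Q.filter (fun p => idx p = k) := ⟨_, rfl⟩
    have hGk := hG k
    rw [← hA] at hr2 hr4
    rw [← hB] at hGk
    have hAB : Q.filter (fun p => idx p < k + 1) = A ∪ B := by
      rw [hA, hB, ← Finset.filter_or]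
      refine Finset.filter_congr fun p _ => ?_
      omega
    have hdis : Disjoint A B := by
      rw [hA, hB, Finset.disjoint_filter]
      intro p _ h1 h2
      omega
    rw [hAB]
    have hBp : ∀ p ∈ B, p.Prime := fun p hp => hQ p (by rw [hB] at hp; exact (Finset.mem_filter.1 hp).1)
    have hBZ : ∀ p ∈ B, p ≤ Z := fun p hp => hZ p (by rw [hB] at hp; exact (Finset.mem_filter.1 hp).1)
    obtain ⟨μ, hμ1, hμ2, hμ3⟩ := mu_ex (by positivity) hGk
    have hnotB : ∀ p, p ∈ A → ¬ p ∈ B := fun p h1 h2 => Finset.disjoint_left.1 hdis h1 h2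
    have hrB : SP (fun p => ¬ p ∈ B) r := SP_mono hnotB hr2
    have hZZ : Z ≤ Z ^ 2 := Nat.le_self_pow (by norm_num) Z
    have hFlen : ∀ n, Z ^ 2 < n → Fb B g μ n = 0 := fun n hn => Fb_len hZ1 hBZ g μ n (by omega)
    have hFSP := Fb_SP hBp g μ
    have hlen : (Z ^ 2) ^ (k + 1) = Z ^ 2 * (Z ^ 2) ^ k := by rw [pow_succ]; ring
    have hF := blk hBp hZ1 hBZ (fun _ => 0) g (fun _ => by simp) hμ3 hμ2
    have hNr : N2 (Z ^ 2 * (Z ^ 2) ^ k) (cv (Fb B g μ) r) = μ * N2 ((Z ^ 2) ^ k) r := by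
      rw [N2_cv hFSP hrB hFlen hr1 le_rfl, hF.1]
    rw [hlen]
    refine ⟨cv (Fb B g μ) r, cv_len _ _ _ _ hFlen hr1, ?_, ?_, ?_⟩
    · exact SP_cv _ _ _ (SP_mono (fun p hp => Finset.mem_union_right _ hp) hFSP)
        (SP_mono (fun p hp => Finset.mem_union_left _ hp) hr2)
    · rw [hNr]
      nlinarith
    · intro a ha
      obtain ⟨e, he1, he2, he3, he4, he5⟩ := hr4 a ha
      have heB : SP (fun p => ¬ p ∈ B) e := SP_mono hnotB he2
      obtain ⟨hb1, hb2, hb3⟩ := blk hBp hZ1 hBZ a g ha hμ3 hμ2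
      have hHlen := Hb_len hZ1 hBZ a g μ
      have hHSP := Hb_SP hBp a g μ
      refine ⟨fun n => cv (Fb B g μ) e n + cv (Hb B a g μ) r n, ?_, ?_, ?_, ?_, ?_⟩
      · intro n hn
        change cv (Fb B g μ) e n + cv (Hb B a g μ) r n = 0
        rw [cv_len _ _ _ _ hFlen he1 n hn, cv_len _ _ _ _ hHlen hr1 n hn, add_zero]
      · exact SP_add (SP_cv _ _ _ (SP_mono (fun p hp => Finset.mem_union_right _ hp) hFSP)
          (SP_mono (fun p hp => Finset.mem_union_left _ hp) he2))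
          (SP_cv _ _ _ (SP_mono (fun p hp => Finset.mem_union_right _ hp) hHSP)
          (SP_mono (fun p hp => Finset.mem_union_left _ hp) hr2))
      · intro t
        rw [dp_add', ← hD.1 _ _ _ _ t hFlen he1, ← hD.1 _ _ _ _ t hHlen hr1, ← hD.1 _ _ _ _ t hFlen hr1, he3 t,
          dp_Hb hD hZ1 hBZ]
        have e1 : dp Z (sS (A ∪ B) a) t = dp Z (sS A a) t + dp Z (sS B a) t := by
          rw [← dp_add']
          congr 1
          funext n
          exact sS_union hdis a n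
        have e2 : mb (A ∪ B) a g = mb A a g + mb B a g := by
          unfold mb
          exact Finset.sum_union hdis
        rw [e1, e2]
        ring
      · rw [ip_add_left, ip_cv hFSP heB hFSP hrB hFlen he1 le_rfl, ip_cv hHSP hrB hFSP hrB hHlen hr1 le_rfl, he4, hb2]
        simp
      · have h1 : N2 (Z ^ 2 * (Z ^ 2) ^ k) (fun n => cv (Fb B g μ) e n + cv (Hb B a g μ) r n) =
            μ * N2 ((Z ^ 2) ^ k) e + N2 (Z ^ 2) (Hb B a g μ) * N2 ((Z ^ 2) ^ k) r := by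
          rw [N2_add, N2_cv hFSP heB hFlen he1 le_rfl, N2_cv hHSP hrB hHlen hr1 le_rfl,
            ip_cv hFSP heB hHSP hrB hFlen he1 le_rfl, he4, hb1]
          simp
        rw [h1, hNr, Finset.sum_union hdis]
        have h2 : 0 ≤ N2 ((Z ^ 2) ^ k) r := N2_nn _ _
        have h3 : 0 ≤ ∑ p ∈ B, (1 : ℝ) / p := by positivity
        have h4 : μ * N2 ((Z ^ 2) ^ k) e ≤ μ * (3 * (∑ p ∈ A, (1 : ℝ) / p) * N2 ((Z ^ 2) ^ k) r) :=
          mul_le_mul_of_nonneg_left he5 (by linarith)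
        have h5 : N2 (Z ^ 2) (Hb B a g μ) * N2 ((Z ^ 2) ^ k) r ≤ 3 * (∑ p ∈ B, (1 : ℝ) / p) * N2 ((Z ^ 2) ^ k) r :=
          mul_le_mul_of_nonneg_right hb3 h2
        have h6 : 3 * (∑ p ∈ B, (1 : ℝ) / p) * N2 ((Z ^ 2) ^ k) r ≤
            μ * (3 * (∑ p ∈ B, (1 : ℝ) / p) * N2 ((Z ^ 2) ^ k) r) :=
          le_mul_of_one_le_left (by positivity) hμ1
        calc μ * N2 ((Z ^ 2) ^ k) e + N2 (Z ^ 2) (Hb B a g μ) * N2 ((Z ^ 2) ^ k) r ≤
            μ * (3 * (∑ p ∈ A, (1 : ℝ) / p) * N2 ((Z ^ 2) ^ k) r) +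
              μ * (3 * (∑ p ∈ B, (1 : ℝ) / p) * N2 ((Z ^ 2) ^ k) r) := by linarith
          _ = _ := by ring

open Classical in
/-- the resonator -/
theorem chain (hD : S_DPM) {Q : Finset ℕ} {Z K : ℕ} (hQ : ∀ p ∈ Q, p.Prime) (hZ1 : 1 ≤ Z) (hZ : ∀ p ∈ Q, p ≤ Z)
    (g : ℕ → ℂ) (idx : ℕ → ℕ) (hidx : ∀ p ∈ Q, idx p < K)
    (hG : ∀ i, ∑ p ∈ Q.filter (fun p => idx p = i), ‖g p‖ ^ 2 / (p : ℝ) ≤ 1 / 4) :
    ∃ r : ℕ → ℂ, (∀ n, (Z ^ 2) ^ K < n → r n = 0) ∧ SP (fun p => p ∈ Q) r ∧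
      1 ≤ N2 ((Z ^ 2) ^ K) r ∧ ∀ a : ℕ → ℂ, (∀ p, ‖a p‖ ≤ 1) → ∃ e : ℕ → ℂ, (∀ n, (Z ^ 2) ^ K < n → e n = 0) ∧
        SP (fun p => p ∈ Q) e ∧
        (∀ t : ℝ, dp ((Z ^ 2) ^ K) e t = (dp Z (sS Q a) t - mb Q a g) * dp ((Z ^ 2) ^ K) r t) ∧
        N2 ((Z ^ 2) ^ K) e ≤ 3 * (∑ p ∈ Q, (1 : ℝ) / p) * N2 ((Z ^ 2) ^ K) r := by
  obtain ⟨r, h1, h2, h3, h4⟩ := chain_aux hD hQ hZ1 hZ g idx hG K
  have hf : Q.filter (fun p => idx p < K) = Q := by
    rw [Finset.filter_eq_self]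
    exact hidx
  rw [hf] at h2 h4
  refine ⟨r, h1, h2, h3, fun a ha => ?_⟩
  obtain ⟨e, e1, e2, e3, -, e5⟩ := h4 a ha
  exact ⟨e, e1, e2, e3, e5⟩

/-- blocks of small mass -/
theorem blocks (Q : Finset ℕ) (u : ℕ → ℝ) {h : ℝ} (hh : 0 < h) (hu0 : ∀ p, 0 ≤ u p) (hu : ∀ p ∈ Q, u p ≤ h / 2) :
    ∃ idx : ℕ → ℕ, (∀ p ∈ Q, (idx p : ℝ) ≤ 2 / h * ∑ p ∈ Q, u p) ∧
      ∀ i, ∑ p ∈ Q.filter (fun p => idx p = i), u p ≤ h := by
  obtain ⟨c, hc⟩ : ∃ c : ℕ → ℝ, c = fun p => ∑ q ∈ Q.filter (fun q => q ≤ p), u q := ⟨_, rfl⟩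
  have hc0 : ∀ p, 0 ≤ c p := fun p => by rw [hc]; exact Finset.sum_nonneg fun q _ => hu0 q
  refine ⟨fun p => ⌊2 / h * c p⌋₊, ?_, ?_⟩
  · intro p _
    have h1 : 0 ≤ 2 / h * c p := mul_nonneg (by positivity) (hc0 p)
    refine (Nat.floor_le h1).trans ?_
    refine mul_le_mul_of_nonneg_left ?_ (by positivity)
    rw [hc]
    exact Finset.sum_le_sum_of_subset_of_nonneg (Finset.filter_subset _ _) fun q _ _ => hu0 q
  · intro i
    obtain ⟨B, hB⟩ : ∃ B : Finset ℕ, B = Q.filter (fun p => ⌊2 / h * c p⌋₊ = i) := ⟨_, rfl⟩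
    rw [← hB]
    rcases B.eq_empty_or_nonempty with h0 | h0
    · rw [h0, Finset.sum_empty]
      exact hh.le
    · obtain ⟨m, hm⟩ : ∃ m, m = B.min' h0 := ⟨_, rfl⟩
      obtain ⟨M, hM⟩ : ∃ M, M = B.max' h0 := ⟨_, rfl⟩
      have hmB : m ∈ B := by rw [hm]; exact Finset.min'_mem _ _
      have hMB : M ∈ B := by rw [hM]; exact Finset.max'_mem _ _
      have hmM : m ≤ M := by rw [hm]; exact Finset.min'_le _ _ hMB
      rw [hB, Finset.mem_filter] at hmB hMB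
      have h1 : ∑ p ∈ B, u p + ∑ q ∈ Q.filter (fun q => q < m), u q ≤ c M := by
        rw [hc, ← Finset.sum_union]
        · apply Finset.sum_le_sum_of_subset_of_nonneg
          · intro p hp
            rw [Finset.mem_union] at hp
            rw [Finset.mem_filter]
            rcases hp with hp | hp
            · refine ⟨?_, ?_⟩
              · rw [hB] at hp; exact (Finset.mem_filter.1 hp).1
              · rw [hM]; exact Finset.le_max' _ _ hp
            · rw [Finset.mem_filter] at hp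
              exact ⟨hp.1, hp.2.le.trans hmM⟩
          · exact fun q _ _ => hu0 q
        · rw [Finset.disjoint_left]
          intro p hp hp2
          rw [Finset.mem_filter] at hp2
          have h3 : m ≤ p := by rw [hm]; exact Finset.min'_le _ _ hp
          omega
      have h2 : c m = ∑ q ∈ Q.filter (fun q => q < m), u q + u m := by
        rw [hc]
        have h3 : Q.filter (fun q => q ≤ m) = insert m (Q.filter (fun q => q < m)) := by
          ext q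
          rw [Finset.mem_insert, Finset.mem_filter, Finset.mem_filter]
          constructor
          · rintro ⟨a1, a2⟩
            rcases Nat.lt_or_ge q m with h4 | h4
            · exact Or.inr ⟨a1, h4⟩
            · exact Or.inl (by omega)
          · rintro (h4 | ⟨a1, a2⟩)
            · rw [h4]; exact ⟨hmB.1, le_rfl⟩
            · exact ⟨a1, a2.le⟩
        simp only
        rw [h3, Finset.sum_insert (by rw [Finset.mem_filter]; exact fun h => lt_irrefl _ h.2)]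
        ring
      have h3 : 2 / h * c M < i + 1 := by
        have := Nat.lt_floor_add_one (2 / h * c M)
        rw [hMB.2] at this
        exact this
      have h4 : (i : ℝ) ≤ 2 / h * c m := by
        have := Nat.floor_le (mul_nonneg (by positivity : (0 : ℝ) ≤ 2 / h) (hc0 m))
        rw [hmB.2] at this
        exact this
      have h5 : 2 / h * (c M - c m) < 1 := by linarith
      have h6 : c M - c m < h / 2 := by
        have h7 : 2 / h * (c M - c m) * (h / 2) < 1 * (h / 2) := mul_lt_mul_of_pos_right h5 (by linarith)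
        have h8 : 2 / h * (c M - c m) * (h / 2) = c M - c m := by field_simp
        linarith
      have h7 := hu m hmB.1
      linarith

end

end Run7.h311.OM
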