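import Pool.Agent.Run7.h311.CM.ZerM
import Pool.Agent.Run7.h311.LW.ZFin

set_option autoImplicit false

/-! Sums over the primes in an interval. -/

namespace Run7.h311.OM

open Filter Topology MeasureTheory Complex
open Pool.Agent.Q97.UM Pool.Agent.Q14.UM Run7.h311.LW

noncomputable section

theorem sum_split (f : ℕ → ℝ) {N M : ℕ} (h : N ≤ M) :
    ∑ p ∈ (Finset.Icc 1 M).filter Nat.Prime, f p = ∑ p ∈ (Finset.Icc 1 N).filter Nat.Prime, f p + ∑ p ∈ bigP N M, f p := by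
  rw [← Finset.sum_union]
  · congr 1
    ext p
    rw [Finset.mem_union, mem_bP, Finset.mem_filter, Finset.mem_filter, Finset.mem_Icc, Finset.mem_Icc]
    constructor
    · rintro ⟨⟨h1, h2⟩, h3⟩
      rcases Nat.lt_or_ge N p with h4 | h4
      · exact Or.inr ⟨h3, h4, h2⟩
      · exact Or.inl ⟨⟨h1, h4⟩, h3⟩
    · rintro (⟨⟨h1, h2⟩, h3⟩ | ⟨h1, h2, h3⟩)
      · exact ⟨⟨h1, h2.trans h⟩, h3⟩
      · exact ⟨⟨h1.one_lt.le, h3⟩, h1⟩
  · rw [Finset.disjoint_left]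
    intro p hp hp2
    rw [Finset.mem_filter, Finset.mem_Icc] at hp
    have := (mem_bP.1 hp2).2.1
    omega

/-- the entire function `(s - 1) ζ(s)` -/
def Z1 : ℂ → ℂ := Function.update (fun s => (s - 1) * riemannZeta s) 1 1

theorem Z1_of_ne {s : ℂ} (h : s ≠ 1) : Z1 s = (s - 1) * riemannZeta s := by
  rw [Z1, Function.update_of_ne h]

theorem Z1_cont : Continuous Z1 := by
  rw [continuous_iff_continuousAt]
  intro s
  rcases eq_or_ne s 1 with rfl | hs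
  · rw [Z1, continuousAt_update_same]
    exact riemannZeta_residue_one
  · have h2 : ContinuousAt (fun s => (s - 1) * riemannZeta s) s :=
      (continuousAt_id.sub continuousAt_const).mul (differentiableAt_riemannZeta hs).continuousAt
    refine h2.congr ?_
    filter_upwards [isOpen_ne.mem_nhds hs] with w hw using (Z1_of_ne hw).symm

theorem Z1_ne {s : ℂ} (hs : 1 ≤ s.re) : Z1 s ≠ 0 := by
  rcases eq_or_ne s 1 with rfl | h
  · rw [Z1, Function.update_self]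
    exact one_ne_zero
  · rw [Z1_of_ne h]
    exact mul_ne_zero (sub_ne_zero.2 h) (riemannZeta_ne_zero_of_one_le_re hs)

/-- the zeta function near the line `Re s = 1` -/
theorem zeta_cpt (A : ℝ) : ∃ C : ℝ, 0 ≤ C ∧ ∀ s u : ℝ, 0 < s → s ≤ 1 → |u| ≤ A →
    |Real.log ‖riemannZeta (1 + s + u * I)‖ + Real.log ‖(s + u * I : ℂ)‖| ≤ C := by
  obtain ⟨Kc, hKc⟩ : ∃ Kc : Set (ℝ × ℝ), Kc = Set.Icc 0 1 ×ˢ Set.Icc (-A) A := ⟨_, rfl⟩
  have hc : IsCompact Kc := by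
    rw [hKc]
    exact isCompact_Icc.prod isCompact_Icc
  have hcont : ContinuousOn (fun z : ℝ × ℝ => Real.log ‖Z1 (1 + z.1 + z.2 * I)‖) Kc := by
    refine ContinuousOn.log ?_ ?_
    · refine (Continuous.norm (Z1_cont.comp ?_)).continuousOn
      fun_prop
    · intro z hz
      rw [hKc, Set.mem_prod] at hz
      have h0 : 0 ≤ z.1 := hz.1.1
      have h1 : Z1 (1 + (z.1 : ℂ) + z.2 * I) ≠ 0 := Z1_ne (by simp [h0])
      exact (norm_pos_iff.2 h1).ne'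
  obtain ⟨C, hC⟩ := hc.exists_bound_of_continuousOn hcont
  refine ⟨max C 0, le_max_right _ _, ?_⟩
  intro s u h1 h2 h4
  have h5 := hC (s, u) (by rw [hKc]; exact ⟨⟨h1.le, h2⟩, abs_le.1 h4⟩)
  rw [Real.norm_eq_abs] at h5
  have h6 : (1 + (s : ℂ) + u * I) ≠ 1 := by
    intro h
    have h7 := congrArg Complex.re h
    simp at h7
    linarith
  have h7 : (1 + (s : ℂ) + u * I) - 1 = s + u * I := by ring
  have h8 : riemannZeta (1 + (s : ℂ) + u * I) ≠ 0 := by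
    apply riemannZeta_ne_zero_of_one_le_re
    simp [h1.le]
  have h9 : (s + u * I : ℂ) ≠ 0 := by
    rw [← h7]
    exact sub_ne_zero.2 h6
  change |Real.log ‖Z1 (1 + (s : ℂ) + u * I)‖| ≤ C at h5
  rw [Z1_of_ne h6, h7, norm_mul, Real.log_mul (norm_pos_iff.2 h9).ne' (norm_pos_iff.2 h8).ne', add_comm] at h5
  exact h5.trans (le_max_left _ _)

/-- the two distances to the pole are comparable -/
theorem dist_cmp {κ s₁ s₂ u : ℝ} (hκ : 0 < κ) (h0 : 0 < s₂) (h1 : s₂ ≤ s₁) (hu : κ * s₁ ≤ |u|) :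
    |Real.log ‖(s₁ + u * I : ℂ)‖ - Real.log ‖(s₂ + u * I : ℂ)‖| ≤ Real.log (1 + 1 / κ) := by
  have n1 : ∀ s : ℝ, |u| ≤ ‖(s + u * I : ℂ)‖ := fun s => by
    have := Complex.abs_im_le_norm (s + u * I : ℂ)
    simpa using this
  have hs1 : 0 < s₁ := by linarith
  have hu0 : 0 < |u| := lt_of_lt_of_le (by positivity) hu
  have p1 : 0 < ‖(s₁ + u * I : ℂ)‖ := hu0.trans_le (n1 s₁)
  have p2 : 0 < ‖(s₂ + u * I : ℂ)‖ := hu0.trans_le (n1 s₂)
  have h2 : ‖(s₂ + u * I : ℂ)‖ ≤ ‖(s₁ + u * I : ℂ)‖ := by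
    have e : ∀ s : ℝ, ‖(s + u * I : ℂ)‖ = Real.sqrt (s * s + u * u) := fun s => by
      rw [Complex.norm_def]
      simp [Complex.normSq_apply]
    rw [e, e]
    apply Real.sqrt_le_sqrt
    nlinarith
  have h3 : ‖(s₁ + u * I : ℂ)‖ ≤ (1 + 1 / κ) * ‖(s₂ + u * I : ℂ)‖ := by
    have h4 : ‖(s₁ + u * I : ℂ)‖ ≤ s₁ + |u| := by
      refine (norm_add_le _ _).trans ?_
      rw [norm_mul, Complex.norm_I, mul_one, Complex.norm_real, Complex.norm_real, Real.norm_eq_abs, Real.norm_eq_abs,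
        abs_of_pos hs1]
    have h5 : s₁ ≤ 1 / κ * |u| := by
      rw [one_div, ← div_eq_inv_mul, le_div_iff₀ hκ]
      linarith
    have h6 : (1 + 1 / κ) * |u| ≤ (1 + 1 / κ) * ‖(s₂ + u * I : ℂ)‖ :=
      mul_le_mul_of_nonneg_left (n1 s₂) (by positivity)
    linarith
  have h4 := Real.log_le_log p2 h2
  have h5 := Real.log_le_log p1 h3
  rw [Real.log_mul (by positivity) p2.ne'] at h5
  rw [abs_of_nonneg (by linarith)]
  linarith

/-- oscillating sums over the primes in an interval are bounded -/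
theorem osc {κ A : ℝ} (hκ : 0 < κ) : ∃ C y₀ : ℝ, 0 ≤ C ∧ ∀ y Z : ℝ, y₀ ≤ y → y ≤ Z → ∀ u : ℝ, κ / Real.log y ≤ |u| →
    |u| ≤ A → |∑ p ∈ bigP ⌊y⌋₊ ⌊Z⌋₊, Real.cos (u * Real.log p) / p| ≤ C := by
  obtain ⟨C₁, h1⟩ := Pool.Agent.Q149.UM.t_MZ 1 one_pos le_rfl
  obtain ⟨C₂, hC₂, h2⟩ := zeta_cpt A
  obtain ⟨y₁, h1⟩ := eventually_atTop.1 h1
  have hlκ : 0 ≤ Real.log (1 + 1 / κ) := Real.log_nonneg (by have : 0 ≤ 1 / κ := by positivity
                                                             linarith)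
  refine ⟨2 * |C₁| + 2 * C₂ + Real.log (1 + 1 / κ), max y₁ (Real.exp 1), by positivity, ?_⟩
  intro y Z hy hZ u hu1 hu2
  have hy1 : y₁ ≤ y := (le_max_left _ _).trans hy
  have hye : Real.exp 1 ≤ y := (le_max_right _ _).trans hy
  have hy0 : 0 < y := (Real.exp_pos 1).trans_le hye
  have hL : ∀ w : ℝ, y ≤ w → 1 ≤ Real.log w := fun w hw => by
    rw [Real.le_log_iff_exp_le (by linarith)]
    exact hye.trans hw
  have key : ∀ w : ℝ, y ≤ w → |(∑ p ∈ (Finset.Icc 1 ⌊w⌋₊).filter Nat.Prime, Real.cos (u * Real.log p) / p) +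
      Real.log ‖((1 / Real.log w : ℝ) + u * I : ℂ)‖| ≤ |C₁| + C₂ := by
    intro w hw
    have h3 := h1 w (hy1.trans hw) u
    rw [Real.rpow_one] at h3
    have h0 := hL w hw
    have h4 := h2 (1 / Real.log w) u (by positivity) (by rw [div_le_one (by linarith)]; exact h0) hu2
    have e : (((1 / Real.log w : ℝ) : ℂ)) = 1 / (Real.log w : ℂ) := by push_cast; rfl
    rw [e] at h4 ⊢
    have h5 := le_abs_self C₁
    rw [abs_le] at h3 h4 ⊢
    constructor <;> linarith [h3.1, h3.2, h4.1, h4.2]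
  have h3 := sum_split (fun p => Real.cos (u * Real.log p) / p) (Nat.floor_mono hZ)
  have h4 := abs_le.1 (key y le_rfl)
  have h5 := abs_le.1 (key Z hZ)
  have hLy := hL y le_rfl
  have hLZ := hL Z hZ
  have h6 := abs_le.1 (dist_cmp (s₁ := 1 / Real.log y) (s₂ := 1 / Real.log Z) (u := u) hκ (by positivity)
    (one_div_le_one_div_of_le (by linarith) (Real.log_le_log hy0 hZ)) (by rw [mul_one_div]; exact hu1))
  rw [abs_le]
  constructor <;> linarith [h4.1, h4.2, h5.1, h5.2, h6.1, h6.2]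

/-- the mass of the primes in an interval -/
theorem mer : ∃ C y₀ : ℝ, 0 ≤ C ∧ ∀ y Z : ℝ, y₀ ≤ y → y ≤ Z →
    |(∑ p ∈ bigP ⌊y⌋₊ ⌊Z⌋₊, (1 : ℝ) / p) - (Real.log (Real.log Z) - Real.log (Real.log y))| ≤ C := by
  obtain ⟨C₁, hC₁, h1⟩ := Run7.h311.CM.prime_two one_pos le_rfl
  obtain ⟨y₁, h1⟩ := eventually_atTop.1 h1
  refine ⟨2 * C₁, y₁, by positivity, ?_⟩
  intro y Z hy hZ
  have h3 := sum_split (fun p => (1 : ℝ) / p) (Nat.floor_mono hZ)
  have h4 := h1 y hy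
  have h5 := h1 Z (hy.trans hZ)
  rw [Real.rpow_one] at h4 h5
  rw [abs_le] at h4 h5 ⊢
  constructor <;> linarith [h4.1, h4.2, h5.1, h5.2]

/-- all primes up to `T` -/
theorem all_le : ∃ C : ℝ, 0 ≤ C ∧ ∀ᶠ T : ℝ in atTop, ∀ P X : ℕ, (X : ℝ) ≤ T →
    ∑ p ∈ bigP P X, (1 : ℝ) / p ≤ Real.log (Real.log T) + C := by
  obtain ⟨C₁, hC₁, h1⟩ := Run7.h311.CM.prime_two one_pos le_rfl
  refine ⟨C₁, hC₁, ?_⟩
  filter_upwards [h1] with T h P X hX
  rw [Real.rpow_one] at h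
  have h2 := (abs_le.1 h).2
  have h3 : ∑ p ∈ bigP P X, (1 : ℝ) / p ≤ ∑ p ∈ (Finset.Icc 1 ⌊T⌋₊).filter Nat.Prime, (1 : ℝ) / p := by
    apply Finset.sum_le_sum_of_subset_of_nonneg
    · intro p hp
      obtain ⟨a1, a2, a3⟩ := mem_bP.1 hp
      rw [Finset.mem_filter, Finset.mem_Icc]
      exact ⟨⟨a1.one_lt.le, a3.trans (Nat.le_floor hX)⟩, a1⟩
    · intro p _ _
      positivity
  linarith

end

end Run7.h311.OM
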