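import Pool.Agent.Run7.h311.OM.Phs
import Pool.Agent.Run7.h311.OM.Core

set_option autoImplicit false

/-! Joint extreme values at several shifts, with prescribed phases of the small primes. -/

namespace Run7.h311.OM

open Filter Topology MeasureTheory Complex
open Pool.Agent.Q97.UM Pool.Agent.Q14.UM Run7.h311.LW
open Pool.Agent.Q98.UM (S3 S3_nonneg)

noncomputable section

theorem sS_uu (Y W : ℕ) (a : ℕ → ℂ) : sS (bigP Y W) a = uu Y W a := by
  funext n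
  unfold sS uu
  by_cases h : n ∈ bigP Y W <;> simp [h]

/-- Markov's inequality with a weight -/
theorem mk {n : ℕ} {T C G H B : ℝ} (hT : 0 < T) {F : ℝ → ℝ} (hFc : Continuous F) (hF0 : ∀ t, 0 ≤ F t)
    (hFB : ∀ t, F t ≤ B) {E : Set ℝ} (hE : MeasurableSet E) (hEs : E ⊆ Set.Ioc T (2 * T))
    (g : Fin n → ℝ → ℝ) (hg : ∀ j, IntervalIntegrable (fun t => g j t * F t) volume T (2 * T))
    (hgm : ∀ j, ∫ t in T..(2 * T), g j t * F t ≤ G) (hg0 : ∀ j t, 0 ≤ g j t * F t) (hC : 0 ≤ C)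
    {S : Finset ℕ} {h : ℕ → ℝ → ℝ} (hh : ∀ q ∈ S, Continuous (h q)) (hh0 : ∀ q t, 0 ≤ h q t)
    (hS : ∑ q ∈ S, ∫ t in T..(2 * T), h q t ≤ H)
    (hpt : ∀ t, T < t → t ≤ 2 * T → t ∉ E → (∃ j, F t ≤ C * (g j t * F t)) ∨ ∃ q ∈ S, F t ≤ h q t) :
    ∫ t in T..(2 * T), F t ≤ B * volume.real E + C * (n * G) + H := by
  have hle : T ≤ 2 * T := by linarith
  have iF : IntegrableOn F (Set.Ioc T (2 * T)) :=
    (intervalIntegrable_iff_integrableOn_Ioc_of_le hle).1 (hFc.intervalIntegrable _ _)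
  have ig : ∀ j, IntegrableOn (fun t => g j t * F t) (Set.Ioc T (2 * T)) := fun j =>
    (intervalIntegrable_iff_integrableOn_Ioc_of_le hle).1 (hg j)
  have ih : ∀ q ∈ S, IntegrableOn (h q) (Set.Ioc T (2 * T)) := fun q hq =>
    (intervalIntegrable_iff_integrableOn_Ioc_of_le hle).1 ((hh q hq).intervalIntegrable _ _)
  have iE : IntegrableOn (E.indicator F) (Set.Ioc T (2 * T)) := Integrable.indicator iF hE
  have ig' : ∀ j ∈ (Finset.univ : Finset (Fin n)), IntegrableOn (fun t => C * (g j t * F t)) (Set.Ioc T (2 * T)) :=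
    fun j _ => (ig j).const_mul C
  have iG : IntegrableOn (fun t => ∑ j, C * (g j t * F t)) (Set.Ioc T (2 * T)) := integrable_finsetSum _ ig'
  have iH : IntegrableOn (fun t => ∑ q ∈ S, h q t) (Set.Ioc T (2 * T)) := integrable_finsetSum _ ih
  have iGH : IntegrableOn (fun t => (∑ j, C * (g j t * F t)) + ∑ q ∈ S, h q t) (Set.Ioc T (2 * T)) := iG.add iH
  have h1 : ∫ t in Set.Ioc T (2 * T), F t ≤
      ∫ t in Set.Ioc T (2 * T), (E.indicator F t + ((∑ j, C * (g j t * F t)) + ∑ q ∈ S, h q t)) := by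
    refine setIntegral_mono_on iF (iE.add iGH) measurableSet_Ioc fun t ht => ?_
    have k1 : 0 ≤ ∑ j, C * (g j t * F t) := Finset.sum_nonneg fun j _ => mul_nonneg hC (hg0 j t)
    have k2 : 0 ≤ ∑ q ∈ S, h q t := Finset.sum_nonneg fun q _ => hh0 q t
    by_cases hte : t ∈ E
    · rw [Set.indicator_of_mem hte]
      linarith
    · rw [Set.indicator_of_notMem hte]
      rcases hpt t ht.1 ht.2 hte with ⟨j, hj⟩ | ⟨q, hq, hq2⟩
      · have k3 := Finset.single_le_sum (f := fun j => C * (g j t * F t)) (fun j _ => mul_nonneg hC (hg0 j t))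
          (Finset.mem_univ j)
        have k4 : C * (g j t * F t) ≤ ∑ j, C * (g j t * F t) := k3
        linarith
      · have k3 := Finset.single_le_sum (f := fun q => h q t) (fun q _ => hh0 q t) hq
        have k4 : h q t ≤ ∑ q ∈ S, h q t := k3
        linarith
  have h2 : ∫ t in Set.Ioc T (2 * T), (E.indicator F t + ((∑ j, C * (g j t * F t)) + ∑ q ∈ S, h q t)) =
      (∫ t in Set.Ioc T (2 * T), E.indicator F t) + ((∑ j, C * ∫ t in Set.Ioc T (2 * T), g j t * F t) +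
        ∑ q ∈ S, ∫ t in Set.Ioc T (2 * T), h q t) := by
    rw [integral_add iE iGH, integral_add iG iH, integral_finsetSum _ ig', integral_finsetSum _ ih]
    congr 2
    exact Finset.sum_congr rfl fun j _ => integral_const_mul _ _
  have h3 : ∫ t in Set.Ioc T (2 * T), E.indicator F t ≤ B * volume.real E := by
    rw [setIntegral_indicator hE, Set.inter_eq_self_of_subset_right hEs]
    have hfin : volume E < ⊤ := (measure_mono hEs).trans_lt measure_Ioc_lt_top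
    have h4 := norm_setIntegral_le_of_norm_le_const hfin (f := F) (C := B) (fun t _ => by
      rw [Real.norm_of_nonneg (hF0 t)]
      exact hFB t)
    rw [Real.norm_eq_abs] at h4
    exact (le_abs_self _).trans h4
  have h4 : ∑ j, C * ∫ t in Set.Ioc T (2 * T), g j t * F t ≤ C * (n * G) := by
    calc ∑ j, C * ∫ t in Set.Ioc T (2 * T), g j t * F t ≤ ∑ _j : Fin n, C * G := by
          refine Finset.sum_le_sum fun j _ => mul_le_mul_of_nonneg_left ?_ hC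
          rw [← intervalIntegral.integral_of_le hle]
          exact hgm j
      _ = C * (n * G) := by
          rw [Finset.sum_const, Finset.card_univ, Fintype.card_fin, nsmul_eq_mul]
          ring
  have h5 : ∑ q ∈ S, ∫ t in Set.Ioc T (2 * T), h q t ≤ H := by
    refine le_trans (le_of_eq ?_) hS
    exact Finset.sum_congr rfl fun q _ => (intervalIntegral.integral_of_le hle).symm
  rw [intervalIntegral.integral_of_le hle]
  linarith

/-- the set of the theorem -/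
def JE (D ε : ℝ) {n : ℕ} (P : ℕ) (z : ℕ → ℂ) (α x : Fin n → ℝ) (T : ℝ) : Set ℝ :=
  Set.Ioc T (2 * T) ∩ ({t : ℝ | ∀ j, |Real.log ‖zt (t + α j)‖ - EP P (t + α j) - x j| ≤ D} ∩
    {t : ℝ | ∀ p : ℕ, p.Prime → p ≤ P → ‖(p : ℂ) ^ (t * I) - z p‖ ≤ ε})

theorem JE_meas (D ε : ℝ) {n : ℕ} (P : ℕ) (z : ℕ → ℂ) (α x : Fin n → ℝ) (T : ℝ) : MeasurableSet (JE D ε P z α x T) := by
  unfold JE
  refine measurableSet_Ioc.inter (MeasurableSet.inter ?_ ?_)
  · have e : {t : ℝ | ∀ j, |Real.log ‖zt (t + α j)‖ - EP P (t + α j) - x j| ≤ D} =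
        ⋂ j, {t : ℝ | |Real.log ‖zt (t + α j)‖ - EP P (t + α j) - x j| ≤ D} := by
      ext t
      simp
    rw [e]
    refine MeasurableSet.iInter fun j => measurableSet_le ?_ measurable_const
    have h1 : Measurable fun t : ℝ => Real.log ‖zt t‖ - EP P t :=
      (Real.measurable_log.comp Pool.Agent.Q149.UM.zt_cont.measurable.norm).sub (Pool.Agent.Q247.UM.EP_cont _).measurable
    exact ((h1.comp (measurable_add_const (α j))).sub_const (x j)).abs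
  · have e : {t : ℝ | ∀ p : ℕ, p.Prime → p ≤ P → ‖(p : ℂ) ^ (t * I) - z p‖ ≤ ε} =
        ⋂ p : ℕ, ⋂ _ : p.Prime, ⋂ _ : p ≤ P, {t : ℝ | ‖(p : ℂ) ^ (t * I) - z p‖ ≤ ε} := by
      ext t
      simp
    rw [e]
    refine MeasurableSet.iInter fun p => MeasurableSet.iInter fun hp => MeasurableSet.iInter fun _ => ?_
    have hp0 : (p : ℂ) ≠ 0 := by exact_mod_cast hp.ne_zero
    have h1 : Continuous fun t : ℝ => ‖(p : ℂ) ^ (t * I) - z p‖ := by
      refine (Continuous.sub ?_ continuous_const).norm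
      exact Continuous.const_cpow (by fun_prop) (Or.inl hp0)
    exact measurableSet_le h1.measurable measurable_const

/-- **joint extreme values at several shifts, with prescribed phases of the small primes** -/
theorem joint (n : ℕ) {κ A ε η : ℝ} (hκ : 0 < κ) (hε : 0 < ε) (hη : 0 < η) : ∃ c C : ℝ, 0 < c ∧ 0 < C ∧
    ∀ᶠ T : ℝ in atTop, ∀ (P : ℕ) (z : ℕ → ℂ) (α x : Fin n → ℝ), P * Real.log (Real.log T) ≤ c * Real.log T →
      (∀ p, ‖z p‖ = 1) → (∀ j, |α j| ≤ T / 2) →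
      (∀ i j, i ≠ j → κ / Real.log (Real.log T) ≤ |α i - α j| ∧ |α i - α j| ≤ A) →
      (∀ j, |x j| ≤ c * Real.sqrt (Real.log T / Real.log (Real.log T))) →
      T ^ (1 - η) ≤ volume.real (JE (C * Real.sqrt (Real.log (Real.log T))) ε P z α x T) := by
  have hD := Pool.Agent.Q84.UM.t_DPM
  have hS3 := S3_nonneg
  obtain ⟨θ₃, δ₀, hθ₃, hδ₀, hTP⟩ := b_THP 1
  obtain ⟨θ, hθ0, hθa, hθb, hθc⟩ : ∃ θ : ℝ, 0 < θ ∧ 2 * θ ≤ θ₃ ∧ θ ≤ 1 / 16 ∧ 3 * θ ≤ η := by
    refine ⟨min (θ₃ / 2) (min (1 / 16) (η / 3)), by positivity, ?_, ?_, ?_⟩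
    · linarith [min_le_left (θ₃ / 2) (min (1 / 16) (η / 3))]
    · exact (min_le_right _ _).trans (min_le_left _ _)
    · linarith [(min_le_right (θ₃ / 2) (min (1 / 16) (η / 3))).trans (min_le_right (1 / 16) (η / 3))]
  obtain ⟨δ, hδ, hδ1, hδ2⟩ : ∃ δ : ℝ, 0 < δ ∧ δ ≤ δ₀ ∧ δ ≤ 1 / 16 :=
    ⟨min δ₀ (1 / 16), by positivity, min_le_left _ _, min_le_right _ _⟩
  obtain ⟨C₀, hC₀, hTP⟩ := hTP δ hδ hδ1
  obtain ⟨c₁, C₁, K', hc₁, hC₁, hK', hcore⟩ := core n (A := A) hκ hθ0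
  obtain ⟨Cm, y₂, hCm, hmer⟩ := mer
  obtain ⟨Ca, hCa, hall⟩ := all_le
  obtain ⟨ε', hε', hε'1, hεε⟩ : ∃ ε' : ℝ, 0 < ε' ∧ ε' ≤ 1 ∧ ε' ≤ ε :=
    ⟨min ε 1, lt_min hε one_pos, min_le_right _ _, min_le_left _ _⟩
  obtain ⟨κ₂, hκ₂, hκ₂1, hphs⟩ := phases hε' hε'1 hθ0 (by linarith : θ ≤ 1) (by positivity : 0 < η / 3)
  obtain ⟨V, hV⟩ : ∃ V, V = Real.log K' + Cm := ⟨_, rfl⟩
  obtain ⟨Cg, hCg⟩ : ∃ Cg, Cg = C₀ + 2 * (12 * S3 + |V| + 5) + 2 * (2 * (1 + Ca) + |C₁| + 1) := ⟨_, rfl⟩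
  have hCg0 : 0 < Cg := by rw [hCg]; positivity
  obtain ⟨C₅, hC₅⟩ : ∃ C₅, C₅ = 8 * ((n : ℝ) + 1) * Cg := ⟨_, rfl⟩
  have hC₅0 : 0 < C₅ := by rw [hC₅]; positivity
  refine ⟨min c₁ κ₂, C₅, by positivity, hC₅0, ?_⟩
  have tL : Tendsto Real.log atTop atTop := Real.tendsto_log_atTop
  have tLL : Tendsto (fun T => Real.log (Real.log T)) atTop atTop := tL.comp tL
  have tL2 : Tendsto (fun T : ℝ => Real.log T ^ 2) atTop atTop := (tendsto_pow_atTop (by norm_num)).comp tL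
  have hK'0 : (0 : ℝ) < K' := by exact_mod_cast (by omega : 0 < K')
  have hpw : ∀ᶠ T : ℝ in atTop, (Real.log T ^ 2) ^ K' ≤ T ^ δ := by
    have h0 : 0 < δ / (2 * K') := by positivity
    have h2 := (isLittleO_log_rpow_atTop h0).bound (show (0 : ℝ) < 1 by norm_num)
    filter_upwards [h2, eventually_ge_atTop (1 : ℝ)] with T h hT
    have hT0 : 0 < T := by linarith
    have hL0 : 0 ≤ Real.log T := Real.log_nonneg hT
    rw [Real.norm_eq_abs, Real.norm_eq_abs, abs_of_nonneg hL0, abs_of_nonneg (by positivity), one_mul] at h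
    calc (Real.log T ^ 2) ^ K' = Real.log T ^ (2 * K') := by rw [← pow_mul]
      _ ≤ (T ^ (δ / (2 * K'))) ^ (2 * K') := pow_le_pow_left₀ hL0 h _
      _ = T ^ δ := by
          rw [← Real.rpow_natCast, ← Real.rpow_mul hT0.le]
          congr 1
          push_cast
          field_simp
  have h4 : ∀ᶠ T : ℝ in atTop, (4 : ℝ) ≤ T ^ (η / 3) :=
    (tendsto_rpow_atTop (by positivity : 0 < η / 3)).eventually_ge_atTop 4
  filter_upwards [hTP, hcore, hall, hphs, hpw, h4, tL2.eventually_ge_atTop y₂, tL.eventually_ge_atTop 3,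
    tLL.eventually_ge_atTop 1, eventually_ge_atTop (16 : ℝ)] with T hTP hcore hall hphs hpw h4 hy₂ hL3 hLL1 hT16
    P z α x hP hz hα hgap hx
  have hT0 : 0 < T := by linarith
  have hT1 : 1 ≤ T := by linarith
  have hmono : ∀ {x y : ℝ}, x ≤ y → T ^ x ≤ T ^ y := fun h => Real.rpow_le_rpow_of_exponent_le hT1 h
  obtain ⟨L, hLd⟩ : ∃ L, L = Real.log T := ⟨_, rfl⟩
  have hL0 : 0 < L := by linarith
  have hPκ : P * Real.log (Real.log T) ≤ κ₂ * Real.log T := by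
    refine hP.trans (mul_le_mul_of_nonneg_right (min_le_right _ _) ?_)
    linarith
  have hxc : ∀ j, |x j| ≤ c₁ * Real.sqrt (Real.log T / Real.log (Real.log T)) := fun j =>
    (hx j).trans (mul_le_mul_of_nonneg_right (min_le_left _ _) (Real.sqrt_nonneg _))
  obtain ⟨M, r, hMle, hrlen, hrS, hrN, hcj⟩ := hcore α x hgap hxc
  obtain ⟨N, b, S, Nq, bq, hNle, hb, hbN, hb1, hq1, hq2, hq3⟩ := hphs P hPκ z hz
  rw [← hLd] at hP hPκ hx hxc hy₂ hL3 hLL1 hrS hcj hq2 hq3 hpw hall ⊢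
  obtain ⟨ll, hll⟩ : ∃ ll, ll = Real.log L := ⟨_, rfl⟩
  rw [← hll] at hP hPκ hx hxc hLL1 hall ⊢
  obtain ⟨l, hl⟩ : ∃ l, l = Real.sqrt ll := ⟨_, rfl⟩
  rw [← hl]
  have hl1 : 1 ≤ l := by rw [hl]; exact Real.one_le_sqrt.2 hLL1
  have hl2 : l ^ 2 = ll := by rw [hl]; exact Real.sq_sqrt (by linarith)
  have hl0 : 0 < l := by linarith
  obtain ⟨Y, hY⟩ : ∃ Y, Y = ⌊L ^ 2⌋₊ := ⟨_, rfl⟩
  obtain ⟨W, hW⟩ : ∃ W, W = ⌊(L ^ 2) ^ K'⌋₊ := ⟨_, rfl⟩
  obtain ⟨X, hX⟩ : ∃ X, X = ⌊T ^ δ⌋₊ := ⟨_, rfl⟩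
  rw [← hY, ← hW] at hrS hcj
  rw [← hX] at hTP
  have hL2 : 1 < L ^ 2 := by nlinarith
  have hyZ : L ^ 2 ≤ (L ^ 2) ^ K' := le_self_pow₀ hL2.le (by omega)
  have hYW : Y ≤ W := by rw [hY, hW]; exact Nat.floor_mono hyZ
  have hWX : W ≤ X := by rw [hX, hW]; exact Nat.floor_mono hpw
  have hP0 : (0 : ℝ) ≤ P := Nat.cast_nonneg P
  have hPL : (P : ℝ) ≤ L :=
    (le_mul_of_one_le_right hP0 hLL1).trans (hPκ.trans (mul_le_of_le_one_left hL0.le hκ₂1))
  have hPY : P ≤ Y := by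
    rw [hY]
    apply Nat.le_floor
    nlinarith
  have hY1 : 1 ≤ Y := by rw [hY]; exact Nat.le_floor (by push_cast; linarith)
  have hX1 : 1 ≤ X := by omega
  have hXle : (X : ℝ) ≤ T ^ δ := by rw [hX]; exact Nat.floor_le (by positivity)
  have hXT : (X : ℝ) ≤ T := hXle.trans (by
    calc T ^ δ ≤ T ^ (1 : ℝ) := hmono (by linarith)
      _ = T := Real.rpow_one T)
  -- the mass between Y and W
  have hVs : ∑ p ∈ bigP Y W, (1 : ℝ) / p ≤ V := by
    have h5 := (abs_le.1 (hmer (L ^ 2) ((L ^ 2) ^ K') hy₂ hyZ)).2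
    have h6 : Real.log ((L ^ 2) ^ K') = K' * Real.log (L ^ 2) := Real.log_pow _ _
    have h7 : 0 < Real.log (L ^ 2) := Real.log_pos hL2
    rw [h6, Real.log_mul hK'0.ne' h7.ne', ← hY, ← hW] at h5
    rw [hV]
    linarith
  have hall' : ∀ P' X' : ℕ, X' ≤ X → ∑ p ∈ bigP P' X', (1 : ℝ) / p ≤ (1 + Ca) * l ^ 2 := by
    intro P' X' h5
    have h6 : (X' : ℝ) ≤ T := le_trans (by exact_mod_cast h5) hXT
    refine (hall P' X' h6).trans ?_
    rw [hl2]
    nlinarith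
  -- the weights
  have hbS : ∀ p : ℕ, p ≤ P → ¬ p ∈ bigP Y W := fun p hp h => by
    have := (mem_bP.1 h).2.1
    omega
  have hSP1 : ∀ {N' : ℕ} {b' : ℕ → ℂ}, Bs P N' b' → SP (fun p => ¬ p ∈ bigP Y W) b' := by
    intro N' b' hb'
    have hb1 : SP (fun p => p ≤ P) b' := fun n hn => by
      obtain ⟨h1, -, h3⟩ := hb' n hn
      exact ⟨by omega, h3⟩
    exact SP_mono hbS hb1
  obtain ⟨N0, hN0⟩ : ∃ N0, N0 = N2 (M * N) (cv r b) := ⟨_, rfl⟩
  have hN0' : N0 = N2 M r * N2 N b := by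
    rw [hN0]
    exact N2_cv hrS (hSP1 hb) hrlen hb.len le_rfl
  have hr0 : 0 < N2 M r := by linarith
  have hb0 : 0 < N2 N b := lt_of_lt_of_le (by positivity) hbN
  have hN00 : 0 < N0 := by rw [hN0']; positivity
  have hMN : ((M * N : ℕ) : ℝ) ≤ T ^ (2 * θ) := by
    push_cast
    calc (M : ℝ) * N ≤ T ^ θ * T ^ θ := by gcongr
      _ = T ^ (2 * θ) := by rw [← Real.rpow_add hT0]; congr 1; ring
  have hlen : ((X ^ 2 * (M * N) : ℕ) : ℝ) ≤ T ^ (1 / 4 : ℝ) := by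
    rw [Nat.cast_mul]
    push_cast at hMN ⊢
    calc (X : ℝ) ^ 2 * (M * N) ≤ (T ^ δ) ^ 2 * T ^ (2 * θ) := by gcongr
      _ = T ^ (2 * δ + 2 * θ) := by
          rw [← Real.rpow_natCast, ← Real.rpow_mul hT0.le, ← Real.rpow_add hT0]
          congr 1
          push_cast
          ring
      _ ≤ _ := hmono (by linarith)
  have hXsq : 1 ≤ X ^ 2 := Nat.one_le_pow _ _ hX1
  have hMN' : ((M * N : ℕ) : ℝ) ≤ T ^ (1 / 4 : ℝ) := by
    refine le_trans ?_ hlen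
    exact_mod_cast Nat.le_mul_of_pos_left _ hXsq
  obtain ⟨F, hF⟩ : ∃ F : ℝ → ℝ, F = fun t => ‖dp (M * N) (cv r b) t‖ ^ 2 := ⟨_, rfl⟩
  have hFt : ∀ t, F t = ‖dp M r t‖ ^ 2 * ‖dp N b t‖ ^ 2 := by
    intro t
    rw [hF]
    change ‖dp (M * N) (cv r b) t‖ ^ 2 = _
    rw [← hD.1 M N r b t hrlen hb.len, norm_mul, mul_pow]
  have hFc : Continuous F := by rw [hF]; exact (dp_c _ _).norm.pow 2
  have hF0 : ∀ t, 0 ≤ F t := fun t => by rw [hFt]; positivity
  have hFB : ∀ t, F t ≤ M * N2 M r := by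
    intro t
    rw [hFt]
    calc ‖dp M r t‖ ^ 2 * ‖dp N b t‖ ^ 2 ≤ ‖dp M r t‖ ^ 2 * 1 := mul_le_mul_of_nonneg_left (hb1 t) (by positivity)
      _ = ‖dp M r t‖ ^ 2 := mul_one _
      _ ≤ _ := (hD.2.2 M r t).1
  choose e w hw he heS hde hNe using hcj
  obtain ⟨g, hg⟩ : ∃ g : Fin n → ℝ → ℝ, g = fun j t => gj l V (α j) (w j) P Y W X t := ⟨_, rfl⟩
  have hgd : ∀ j t, |Real.log ‖zt (t + α j)‖ - EP P (t + α j) - x j| ≤ g j t := by
    intro j t
    rw [hg, ← hw j]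
    exact gj_ge hl0 (w j) hPY hYW hWX hVs t
  have hgi : ∀ j, IntervalIntegrable (fun t => g j t * F t) volume T (2 * T) ∧
      ∫ t in T..(2 * T), g j t * F t ≤ Cg * l * (T * N0) := by
    intro j
    rw [hg, hF, hCg, hN0]
    refine gj_int hT16 hl1 (hα j) (w j) hYW (fun b' => hTP (M * N) (hMN.trans (hmono hθa)) b') hrlen hrS (he j) (heS j)
      (fun t => ?_) (hNe j) hb hPY hlen (hYW.trans hWX) hall' hX1
    rw [hde j t, sS_uu]
  obtain ⟨hf, hhf⟩ : ∃ hf : ℕ → ℝ → ℝ, hf = fun q t => 1 / L ^ 4 * (‖dp M r t‖ ^ 2 * ‖dp (Nq q) (bq q) t‖ ^ 2) :=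
    ⟨_, rfl⟩
  have hhc : ∀ q, Continuous (hf q) := by
    intro q
    rw [hhf]
    exact continuous_const.mul (((dp_c _ _).norm.pow 2).mul ((dp_c _ _).norm.pow 2))
  have hhS : ∑ q ∈ S, ∫ t in T..(2 * T), hf q t ≤ 1 / 16 * (T * N0) := by
    have h5 : ∀ q ∈ S, ∫ t in T..(2 * T), hf q t ≤ 2 * T * N2 M r * (1 / L ^ 4 * N2 (Nq q) (bq q)) := by
      intro q hq
      rw [hhf]
      change ∫ t in T..(2 * T), 1 / L ^ 4 * (‖dp M r t‖ ^ 2 * ‖dp (Nq q) (bq q) t‖ ^ 2) ≤ _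
      rw [intervalIntegral.integral_const_mul]
      have h6 : ((M * Nq q : ℕ) : ℝ) ≤ T ^ (1 / 4 : ℝ) := by
        push_cast
        calc (M : ℝ) * Nq q ≤ T ^ θ * T ^ θ := by gcongr; exact (hq1 q hq).1
          _ = T ^ (2 * θ) := by rw [← Real.rpow_add hT0]; congr 1; ring
          _ ≤ _ := hmono (by linarith)
      have h7 := pint hT16 hrS (hSP1 (hq1 q hq).2) hrlen (hq1 q hq).2.len h6
      calc 1 / L ^ 4 * ∫ t in T..(2 * T), ‖dp M r t‖ ^ 2 * ‖dp (Nq q) (bq q) t‖ ^ 2 ≤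
          1 / L ^ 4 * (2 * T * (N2 M r * N2 (Nq q) (bq q))) := mul_le_mul_of_nonneg_left h7 (by positivity)
        _ = _ := by ring
    refine (Finset.sum_le_sum h5).trans ?_
    rw [← Finset.mul_sum]
    calc 2 * T * N2 M r * ∑ q ∈ S, 1 / L ^ 4 * N2 (Nq q) (bq q) ≤ 2 * T * N2 M r * (1 / 32 * N2 N b) :=
          mul_le_mul_of_nonneg_left hq3 (by positivity)
      _ = 1 / 16 * (T * N0) := by rw [hN0']; ring
  obtain ⟨E, hE⟩ : ∃ E, E = JE (C₅ * l) ε P z α x T := ⟨_, rfl⟩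
  have hmk := mk (n := n) (T := T) (C := 1 / (C₅ * l)) (G := Cg * l * (T * N0)) (H := 1 / 16 * (T * N0))
    (B := M * N2 M r) hT0 hFc hF0 hFB (E := E) (by rw [hE]; exact JE_meas _ _ _ _ _ _ _)
    (by rw [hE]; exact Set.inter_subset_left) g (fun j => (hgi j).1) (fun j => (hgi j).2)
    (fun j t => mul_nonneg ((abs_nonneg _).trans (hgd j t)) (hF0 t)) (by positivity) (S := S) (h := hf)
    (fun q _ => hhc q) (fun q t => by rw [hhf]; positivity) hhS (by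
      intro t ht1 ht2 hte
      by_cases hp : ∃ p : ℕ, p.Prime ∧ p ≤ P ∧ ε < ‖(p : ℂ) ^ (t * I) - z p‖
      · right
        obtain ⟨p, hp1, hp2, hp3⟩ := hp
        obtain ⟨q, hq, hq5⟩ := hq2 t ⟨p, hp1, hp2, lt_of_le_of_lt hεε hp3⟩
        refine ⟨q, hq, ?_⟩
        rw [hFt, hhf]
        change ‖dp M r t‖ ^ 2 * ‖dp N b t‖ ^ 2 ≤ 1 / L ^ 4 * (‖dp M r t‖ ^ 2 * ‖dp (Nq q) (bq q) t‖ ^ 2)
        calc ‖dp M r t‖ ^ 2 * ‖dp N b t‖ ^ 2 ≤ ‖dp M r t‖ ^ 2 * (1 / L ^ 4 * ‖dp (Nq q) (bq q) t‖ ^ 2) :=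
              mul_le_mul_of_nonneg_left hq5 (by positivity)
          _ = _ := by ring
      · left
        push Not at hp
        have h5 : ∃ j, C₅ * l < |Real.log ‖zt (t + α j)‖ - EP P (t + α j) - x j| := by
          by_contra h6
          push Not at h6
          apply hte
          rw [hE]
          exact ⟨⟨ht1, ht2⟩, h6, hp⟩
        obtain ⟨j, hj⟩ := h5
        refine ⟨j, ?_⟩
        have h6 : 1 ≤ 1 / (C₅ * l) * g j t := by
          rw [one_div, ← div_eq_inv_mul, one_le_div (by positivity)]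
          exact hj.le.trans (hgd j t)
        calc F t ≤ 1 / (C₅ * l) * g j t * F t := le_mul_of_one_le_left (hF0 t) h6
          _ = _ := by ring)
  have hlow := (Pool.Agent.Q84.UM.t_MVL T hT16 (M * N) hMN' (cv r b)).1
  rw [← hN0] at hlow
  have hFeq : ∫ t in T..(2 * T), ‖dp (M * N) (cv r b) t‖ ^ 2 = ∫ t in T..(2 * T), F t := by rw [hF]
  rw [hFeq] at hlow
  have h6 : 1 / (C₅ * l) * (n * (Cg * l * (T * N0))) ≤ 1 / 8 * (T * N0) := by
    have h7 : 1 / (C₅ * l) * (n * (Cg * l * (T * N0))) = (n / (n + 1)) * (1 / 8 * (T * N0)) := by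
      rw [hC₅]
      field_simp
    rw [h7]
    refine mul_le_of_le_one_left (by positivity) ?_
    rw [div_le_one (by positivity)]
    linarith
  have hTN : 0 < T * N0 := by positivity
  have h7 : 1 / 4 * (T * N0) ≤ M * N2 M r * volume.real E := by linarith
  have h8 : 1 / 4 * (T * N2 N b) ≤ M * volume.real E := by
    rw [hN0'] at h7
    have h9 : N2 M r * (1 / 4 * (T * N2 N b)) ≤ N2 M r * (M * volume.real E) := by
      calc N2 M r * (1 / 4 * (T * N2 N b)) = 1 / 4 * (T * (N2 M r * N2 N b)) := by ring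
        _ ≤ M * N2 M r * volume.real E := h7
        _ = _ := by ring
    exact le_of_mul_le_mul_left h9 hr0
  rw [← hE]
  have hvE : 0 ≤ volume.real E := measureReal_nonneg
  have h9 : T * T ^ (-(η / 3)) ≤ 4 * (T ^ θ * volume.real E) := by
    have h10 : T * T ^ (-(η / 3)) ≤ T * N2 N b := mul_le_mul_of_nonneg_left hbN hT0.le
    have h11 : M * volume.real E ≤ T ^ θ * volume.real E := mul_le_mul_of_nonneg_right hMle hvE
    linarith
  have h10 : T ^ θ ≤ T ^ (η / 3) := hmono (by linarith)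
  have h11 : T ^ (1 - η) * (4 * T ^ (η / 3)) ≤ T * T ^ (-(η / 3)) := by
    calc T ^ (1 - η) * (4 * T ^ (η / 3)) ≤ T ^ (1 - η) * (T ^ (η / 3) * T ^ (η / 3)) := by gcongr
      _ = T * T ^ (-(η / 3)) := by
          rw [← Real.rpow_add hT0, ← Real.rpow_add hT0]
          nth_rewrite 2 [← Real.rpow_one T]
          rw [← Real.rpow_add hT0]
          congr 1
          ring
  have h12 : 4 * (T ^ θ * volume.real E) ≤ volume.real E * (4 * T ^ (η / 3)) := by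
    calc 4 * (T ^ θ * volume.real E) ≤ 4 * (T ^ (η / 3) * volume.real E) := by gcongr
      _ = _ := by ring
  have h13 : T ^ (1 - η) * (4 * T ^ (η / 3)) ≤ volume.real E * (4 * T ^ (η / 3)) := h11.trans (h9.trans h12)
  exact le_of_mul_le_mul_right h13 (by positivity)

end

end Run7.h311.OM
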