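import Pool.Agent.Run7.h311.LW.Cmc

set_option autoImplicit false

/-! The inner product of coefficient sequences. -/

namespace Run7.h311.OM

open Filter Topology MeasureTheory Complex
open Pool.Agent.Q97.UM Pool.Agent.Q14.UM Run7.h311.LW

noncomputable section

/-- the inner product -/
def ip (M : ℕ) (u v : ℕ → ℂ) : ℂ := ∑ n ∈ Finset.Icc 1 M, u n * (starRingEnd ℂ) (v n) / n

theorem ip_self (M : ℕ) (u : ℕ → ℂ) : ip M u u = (N2 M u : ℂ) := by
  unfold ip N2
  push_cast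
  refine Finset.sum_congr rfl fun n _ => ?_
  rw [Complex.mul_conj, Complex.normSq_eq_norm_sq]
  push_cast
  rfl

theorem ip_add_left (M : ℕ) (u v w : ℕ → ℂ) : ip M (fun n => u n + v n) w = ip M u w + ip M v w := by
  unfold ip
  rw [← Finset.sum_add_distrib]
  refine Finset.sum_congr rfl fun n _ => ?_
  ring

theorem ip_smul_left (M : ℕ) (z : ℂ) (u w : ℕ → ℂ) : ip M (fun n => z * u n) w = z * ip M u w := by
  unfold ip
  rw [Finset.mul_sum]
  refine Finset.sum_congr rfl fun n _ => ?_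
  ring

theorem ip_add_right (M : ℕ) (u v w : ℕ → ℂ) : ip M u (fun n => v n + w n) = ip M u v + ip M u w := by
  unfold ip
  rw [← Finset.sum_add_distrib]
  refine Finset.sum_congr rfl fun n _ => ?_
  rw [map_add]
  ring

theorem ip_smul_right (M : ℕ) (z : ℂ) (u w : ℕ → ℂ) :
    ip M u (fun n => z * w n) = (starRingEnd ℂ) z * ip M u w := by
  unfold ip
  rw [Finset.mul_sum]
  refine Finset.sum_congr rfl fun n _ => ?_
  rw [map_mul]
  ring

theorem ip_zero_left (M : ℕ) (w : ℕ → ℂ) : ip M (fun _ => 0) w = 0 := by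
  unfold ip
  simp

theorem ip_conj (M : ℕ) (u v : ℕ → ℂ) : ip M v u = (starRingEnd ℂ) (ip M u v) := by
  unfold ip
  rw [map_sum]
  refine Finset.sum_congr rfl fun n _ => ?_
  rw [map_div₀, map_mul, Complex.conj_conj, Complex.conj_natCast]
  ring

/-- disjoint supports -/
theorem ip_disj (M : ℕ) (u v : ℕ → ℂ) (h : ∀ n, u n ≠ 0 → v n = 0) : ip M u v = 0 := by
  unfold ip
  apply Finset.sum_eq_zero
  intro n _
  by_cases h1 : u n = 0
  · rw [h1]; simp
  · rw [h n h1]; simp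

theorem N2_add (M : ℕ) (u v : ℕ → ℂ) : N2 M (fun n => u n + v n) = N2 M u + N2 M v + 2 * (ip M u v).re := by
  have h : ((N2 M (fun n => u n + v n) : ℝ) : ℂ) = (N2 M u : ℂ) + ip M u v + (ip M v u + (N2 M v : ℂ)) := by
    rw [← ip_self, ip_add_left, ip_add_right, ip_add_right, ip_self, ip_self]
  have h2 := congrArg Complex.re h
  rw [ip_conj M u v] at h2
  simp only [Complex.ofReal_re, Complex.add_re, Complex.conj_re] at h2
  linarith

theorem ip_len {X M : ℕ} {u v : ℕ → ℂ} (hX : ∀ n, X < n → u n = 0) (h : X ≤ M) : ip X u v = ip M u v := by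
  unfold ip
  apply Finset.sum_subset (Finset.Icc_subset_Icc_right h)
  intro n hn hn2
  rw [Finset.mem_Icc] at hn hn2
  rw [hX n (by omega)]
  simp

theorem cop_SP {P : ℕ → Prop} {u v : ℕ → ℂ} (hu : SP P u) (hv : SP (fun p => ¬ P p) v) {x y : ℕ} (hx : u x ≠ 0)
    (hy : v y ≠ 0) : Nat.Coprime x y := by
  apply Nat.Coprime.symm
  by_contra hc
  obtain ⟨p, hp, h1, h2⟩ := Nat.Prime.not_coprime_iff_dvd.1 hc
  exact (hv y hy).2 p hp h1 ((hu x hx).2 p hp h2)

open Classical in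
/-- the inner product of convolutions with coprime supports -/
theorem ip_cv {u v u' v' : ℕ → ℂ} {P : ℕ → Prop} (hu : SP P u) (hv : SP (fun p => ¬ P p) v) (hu' : SP P u')
    (hv' : SP (fun p => ¬ P p) v') {X Y M : ℕ} (hX : ∀ n, X < n → u n = 0) (hY : ∀ n, Y < n → v n = 0)
    (hM : X * Y ≤ M) : ip M (cv u v) (cv u' v') = ip X u u' * ip Y v v' := by
  obtain ⟨F, hF⟩ : ∃ F : Finset (ℕ × ℕ), F = (Finset.Icc 1 X ×ˢ Finset.Icc 1 Y).filter
    (fun z => (u z.1 ≠ 0 ∧ v z.2 ≠ 0) ∧ (u' z.1 ≠ 0 ∧ v' z.2 ≠ 0)) := ⟨_, rfl⟩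
  have h1 : ip X u u' * ip Y v v' = ∑ z ∈ F, cv u v (z.1 * z.2) * (starRingEnd ℂ) (cv u' v' (z.1 * z.2)) /
      ((z.1 * z.2 : ℕ) : ℂ) := by
    unfold ip
    rw [Finset.sum_mul_sum, ← Finset.sum_product', hF, Finset.sum_filter]
    apply Finset.sum_congr rfl
    rintro ⟨d, e⟩ hz
    simp only
    split_ifs with h
    · rw [cv_coprime u v P hu hv d e h.1.1 h.1.2, cv_coprime u' v' P hu' hv' d e h.2.1 h.2.2, map_mul]
      push_cast
      have hd0 : (d : ℂ) ≠ 0 := by exact_mod_cast (hu d h.1.1).1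
      have he0 : (e : ℂ) ≠ 0 := by exact_mod_cast (hv e h.1.2).1
      field_simp
    · rw [not_and_or, not_and_or, not_and_or, not_not, not_not, not_not, not_not] at h
      rcases h with (h | h) | (h | h) <;> simp [h]
  rw [h1]
  have hinj : ∀ d e d' e' : ℕ, u d ≠ 0 → v e ≠ 0 → u' d' ≠ 0 → v' e' ≠ 0 → d * e = d' * e' → d = d' ∧ e = e' := by
    intro d e d' e' a1 a2 a3 a4 heq
    have e1 : d ∣ d' := by
      have : d ∣ d' * e' := ⟨e, heq.symm⟩
      exact (cop_SP hu hv' a1 a4).dvd_of_dvd_mul_right this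
    have e2 : d' ∣ d := by
      have : d' ∣ d * e := ⟨e', heq⟩
      exact (cop_SP hu' hv a3 a2).dvd_of_dvd_mul_right this
    have e3 : d = d' := Nat.dvd_antisymm e1 e2
    subst e3
    exact ⟨rfl, Nat.eq_of_mul_eq_mul_left (Nat.pos_of_ne_zero (hu d a1).1) heq⟩
  have h2 : ∑ z ∈ F, cv u v (z.1 * z.2) * (starRingEnd ℂ) (cv u' v' (z.1 * z.2)) / ((z.1 * z.2 : ℕ) : ℂ) =
      ∑ n ∈ F.image (fun z => z.1 * z.2), cv u v n * (starRingEnd ℂ) (cv u' v' n) / (n : ℂ) := by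
    rw [Finset.sum_image]
    rintro ⟨d, e⟩ hz ⟨d', e'⟩ hz' heq
    simp only [hF, Finset.coe_filter, Set.mem_ofPred_eq] at hz hz' heq
    obtain ⟨r1, r2⟩ := hinj d e d' e' hz.2.1.1 hz.2.1.2 hz'.2.2.1 hz'.2.2.2 heq
    rw [r1, r2]
  rw [h2]
  unfold ip
  symm
  apply Finset.sum_subset
  · intro n hn
    rw [Finset.mem_image] at hn
    obtain ⟨⟨d, e⟩, hz, rfl⟩ := hn
    rw [hF, Finset.mem_filter, Finset.mem_product, Finset.mem_Icc, Finset.mem_Icc] at hz
    rw [Finset.mem_Icc]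
    exact ⟨Nat.mul_pos hz.1.1.1 hz.1.2.1, (Nat.mul_le_mul hz.1.1.2 hz.1.2.2).trans hM⟩
  · intro n _ hn
    by_cases c1 : cv u v n = 0
    · rw [c1]; simp
    by_cases c2 : cv u' v' n = 0
    · rw [c2]; simp
    exfalso
    apply hn
    unfold cv at c1 c2
    obtain ⟨z, hz, h4⟩ := Finset.exists_ne_zero_of_sum_ne_zero c1
    obtain ⟨z', hz', h4'⟩ := Finset.exists_ne_zero_of_sum_ne_zero c2
    rw [Nat.mem_divisorsAntidiagonal] at hz hz'
    have a1 := left_ne_zero_of_mul h4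
    have a2 := right_ne_zero_of_mul h4
    have a3 := left_ne_zero_of_mul h4'
    have a4 := right_ne_zero_of_mul h4'
    obtain ⟨r1, r2⟩ := hinj z.1 z.2 z'.1 z'.2 a1 a2 a3 a4 (hz.1.trans hz'.1.symm)
    rw [Finset.mem_image]
    refine ⟨z, ?_, hz.1⟩
    rw [hF, Finset.mem_filter, Finset.mem_product, Finset.mem_Icc, Finset.mem_Icc]
    refine ⟨⟨⟨Nat.one_le_iff_ne_zero.2 (hu _ a1).1, ?_⟩, ⟨Nat.one_le_iff_ne_zero.2 (hv _ a2).1, ?_⟩⟩, ⟨a1, a2⟩, ?_⟩
    · by_contra h7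
      exact a1 (hX _ (not_le.1 h7))
    · by_contra h7
      exact a2 (hY _ (not_le.1 h7))
    · rw [r1, r2]
      exact ⟨a3, a4⟩

/-- the mean square of a convolution with coprime supports -/
theorem N2_cv {u v : ℕ → ℂ} {P : ℕ → Prop} (hu : SP P u) (hv : SP (fun p => ¬ P p) v) {X Y M : ℕ}
    (hX : ∀ n, X < n → u n = 0) (hY : ∀ n, Y < n → v n = 0) (hM : X * Y ≤ M) :
    N2 M (cv u v) = N2 X u * N2 Y v := by
  have h := ip_cv hu hv hu hv hX hY hM
  rw [ip_self, ip_self, ip_self] at h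
  exact_mod_cast h

theorem cv_add_left (u v w : ℕ → ℂ) : cv (fun n => u n + v n) w = fun n => cv u w n + cv v w n := by
  funext n
  unfold cv
  rw [← Finset.sum_add_distrib]
  refine Finset.sum_congr rfl fun z _ => ?_
  ring

theorem cv_smul_left (c : ℂ) (u w : ℕ → ℂ) : cv (fun n => c * u n) w = fun n => c * cv u w n := by
  funext n
  unfold cv
  rw [Finset.mul_sum]
  refine Finset.sum_congr rfl fun z _ => ?_
  ring

theorem cv_add_right (u v w : ℕ → ℂ) : cv u (fun n => v n + w n) = fun n => cv u v n + cv u w n := by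
  funext n
  unfold cv
  rw [← Finset.sum_add_distrib]
  refine Finset.sum_congr rfl fun z _ => ?_
  ring

theorem cv_smul_right (c : ℂ) (u w : ℕ → ℂ) : cv u (fun n => c * w n) = fun n => c * cv u w n := by
  funext n
  unfold cv
  rw [Finset.mul_sum]
  refine Finset.sum_congr rfl fun z _ => ?_
  ring

end

end Run7.h311.OM
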